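import Mathlib
import Pool.Agent.W812.RB.Fin
import Pool.Agent.W346.RB.Int
import Pool.Agent.W346.RB.Primes
import Pool.Agent.W356.RB.Prod
import Pool.Agent.W310.RB.Main

/-!
A lower bound for the size of the largest subset of `{1, ..., N}` without three terms in
arithmetic progression.
-/

namespace Pool.Agent.Results.MP_0f71ae_nt.BehrendConstant

open Finset

/-- `A` contains no three terms `a`, `a + d`, `a + 2 * d` with `d ≥ 1`. -/
def APFree (A : Finset ℕ) : Prop :=
  ∀ a d : ℕ, 1 ≤ d → a ∈ A → a + d ∈ A → a + 2 * d ∉ A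

/-- The largest size of a subset of `{1, ..., N}` without three-term progressions. -/
noncomputable def r3 (N : ℕ) : ℕ :=
  sSup {m : ℕ | ∃ A : Finset ℕ, A ⊆ Icc 1 N ∧ APFree A ∧ A.card = m}

lemma roth_le (N : ℕ) : rothNumberNat N ≤ r3 N := by
  classical
  obtain ⟨T, hT, hc, hfree⟩ := rothNumberNat_spec N
  have hbdd : BddAbove {m : ℕ | ∃ A : Finset ℕ, A ⊆ Icc 1 N ∧ APFree A ∧ A.card = m} := by
    refine ⟨N, ?_⟩
    rintro m ⟨A, hA, -, rfl⟩
    simpa using card_le_card hA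
  refine le_csSup hbdd ⟨T.image (fun x => x + 1), ?_, ?_, ?_⟩
  · intro x hx
    rw [mem_image] at hx
    obtain ⟨y, hy, rfl⟩ := hx
    have := mem_range.1 (hT hy)
    rw [mem_Icc]
    omega
  · intro a d hd h0 h1 h2
    rw [mem_image] at h0 h1 h2
    obtain ⟨x, hx, hx'⟩ := h0
    obtain ⟨y, hy, hy'⟩ := h1
    obtain ⟨z, hz, hz'⟩ := h2
    have := hfree (mem_coe.2 hx) (mem_coe.2 hy) (mem_coe.2 hz) (by omega)
    omega
  · rw [card_image_of_injective _ (fun x y h => by simpa using h), hc]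

/-- **Theorem.** For all large `N` one has `r₃(N) ≥ N exp(-2.1243 √(log N))`. -/
theorem result : ∃ N₀ : ℕ, ∀ N : ℕ, N₀ ≤ N →
    (N : ℝ) * Real.exp (-(2.1243 * Real.sqrt (Real.log N))) ≤ r3 N := by
  obtain ⟨N₀, h⟩ := Pool.Agent.W310.RB.main Pool.Agent.W356.RB.prod Pool.Agent.W346.RB.integer
    Pool.Agent.W346.RB.primes 0.5689 2.1243 (by norm_num) (by norm_num)
    Pool.Agent.W812.RB.density Pool.Agent.W812.RB.const_lt
  refine ⟨N₀, fun N hN => ?_⟩
  have h1 := h N hN
  have h2 : (rothNumberNat N : ℝ) ≤ r3 N := by exact_mod_cast roth_le N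
  refine le_trans ?_ h2
  refine le_trans (le_of_eq ?_) h1
  congr 2
  ring

end Pool.Agent.Results.MP_0f71ae_nt.BehrendConstant
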